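import Pool.Agent.ASE.Stmts6
import Pool.Agent.Helper25_K9.PRG

/-!
# Squad ASE, row HZA: a block has a character of height zero
-/

open scoped BigOperators

set_option autoImplicit false

noncomputable section

namespace Pool.Agent.PP.SE.H30

open Pool.Agent.Helper51_AWC Pool.Agent.Helper79_WRA Pool.Agent.PP Pool.Agent.PP.KF
open Pool.Agent.PP.K9 Pool.Agent.PP.K9.H97 Pool.Agent.PP.H75 Pool.Agent.PP.T3 Pool.Agent.PP.SO
open Pool.Agent.PP.SD

attribute [local instance] Ideal.Quotient.field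

/-- the dual character -/
theorem hza_inv {H : Type} [Group H] [Finite H] {χ : H → ℂ} (hχ : χ ∈ Irr H) :
    (fun h => χ h⁻¹) ∈ Irr H := by
  classical
  have := Fintype.ofFinite H
  obtain ⟨n, r, r1, r2, r3⟩ := irr_coeff hχ
  refine mem_Irr_of_coeff (fun g a b => r g⁻¹ b a) ?_ ?_ _ (fun g => r3 g⁻¹) ?_
  · intro a b
    rw [inv_one, r1]
    by_cases h : a = b
    · rw [if_pos h, if_pos h.symm]
    · rw [if_neg h, if_neg (Ne.symm h)]
  · intro g h a b
    rw [mul_inv_rev, r2]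
    exact Finset.sum_congr rfl fun c _ => mul_comm _ _
  · simp only [inv_inv]
    rw [← irr_orth_self hχ]
    exact Finset.sum_congr rfl fun g _ => mul_comm _ _

/-- a rational number in the local ring with residue zero is divisible by `ℓ` -/
theorem rat_div {ℓ : ℕ} [Fact ℓ.Prime] {M : Ideal (integralClosure ℤ ℂ)} [M.IsMaximal]
    (hM : (ℓ : integralClosure ℤ ℂ) ∈ M) {q : ℚ} (h : (q : ℂ) ∈ RM M)
    (h0 : rr M (q : ℂ) = 0) : (q : ℂ) / ℓ ∈ RM M := by
  have hℓ : ℓ.Prime := Fact.out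
  have h1 : ((q.num : ℤ) : ℂ) = (q : ℂ) * ((q.den : ℕ) : ℂ) := by
    have h2 : (q.num : ℚ) = q * q.den := (Rat.mul_den_eq_num q).symm
    exact_mod_cast congrArg (fun x : ℚ => (x : ℂ)) h2
  have h5 : rr M ((q.num : ℤ) : ℂ) = 0 := by
    rw [h1, rr_mul h (rr_nat _).1, h0, zero_mul]
  have h6 : (ℓ : ℤ) ∣ q.num := (dvd_of_rr (M := M) hℓ hM).1 h5
  have hd : ¬ ℓ ∣ q.den := by
    intro hd
    have h7 : ℓ ∣ q.num.natAbs := Int.natCast_dvd.1 h6
    have h9 := Nat.dvd_gcd h7 hd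
    rw [q.reduced] at h9
    exact hℓ.one_lt.ne' (Nat.dvd_one.1 h9)
  obtain ⟨k, hk⟩ := h6
  have hℓ0 : (ℓ : ℂ) ≠ 0 := by exact_mod_cast hℓ.ne_zero
  have hd0 : (q.den : ℂ) ≠ 0 := by exact_mod_cast q.den_nz
  have h8 : (q : ℂ) / ℓ = (k : ℂ) * ((q.den : ℂ))⁻¹ := by
    have h10 : (q : ℂ) * q.den = ℓ * k := by
      rw [← h1, hk]
      push_cast
      ring
    rw [div_eq_iff hℓ0, mul_assoc, mul_comm ((q.den : ℂ))⁻¹, ← mul_assoc, eq_mul_inv_iff_mul_eq₀ hd0,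
      h10, mul_comm]
  rw [h8]
  exact (RM M).mul_mem (rr_int k).1 (inv_nat_RM hℓ hM hd)

/-- HZA -/
theorem hza (deg : T5.DegStmt) (prj : SO.PrjStmt) (fmg : K9.FmgStmt) (idm : KF.IdmStmt)
    (wbo : K9.WboStmt) : HzaStmt := by
  intro ℓ _ M _ hM G _ _ e he V hV
  classical
  have := Fintype.ofFinite G
  have hℓ : ℓ.Prime := Fact.out
  have hℓ0 : (ℓ : ℂ) ≠ 0 := by exact_mod_cast hℓ.ne_zero
  have hV0 : (Nat.card V : ℂ) ≠ 0 := by exact_mod_cast Nat.card_pos.ne'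
  by_contra hcon
  push Not at hcon
  have ha : ∀ χ ∈ IrrE M e, (Nat.card V * χ 1 / Nat.card G : ℂ) / ℓ ∈ RM M := by
    intro χ hχ
    obtain ⟨d, hd0, hd⟩ := irr_one hχ.1
    have h1 := deg ℓ M hM G e he V hV χ hχ
    have hq : (Nat.card V * χ 1 / Nat.card G : ℂ) =
        (((Nat.card V : ℚ) * d / Nat.card G : ℚ) : ℂ) := by
      rw [hd]
      push_cast
      rfl
    have h2 : rr M (Nat.card V * χ 1 / Nat.card G : ℂ) = 0 := by
      by_contra h3
      have h4 := (inv_RM h1 h3).1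
      apply hcon χ hχ
      rw [inv_div] at h4
      exact h4
    rw [hq] at h1 h2 ⊢
    exact rat_div hM h1 h2
  -- the function
  obtain ⟨f, hf⟩ : ∃ f : G → ℂ, f = fun h => (Nat.card V : ℂ) / ℓ * eh M e h := ⟨_, rfl⟩
  have hfP : ∀ s, f s / Nat.card (Cu s) ∈ RM M := by
    apply prj ℓ M hM G f
    · intro x y
      rw [hf]
      change _ * eh M e (y * x * y⁻¹) = _ * eh M e x
      rw [K9.H25.eh_cl]
    · intro x hx
      rw [hf]
      change _ * eh M e x = 0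
      rw [K9.H25.eh_sing wbo ℓ M hM e he.1 x hx, mul_zero]
    · intro χ hχ
      have h1 := K9.H25.eh_chv M e (hza_inv hχ)
      have h2 : (Nat.card G : ℂ)⁻¹ * ∑ᶠ h, f h * χ h⁻¹ =
          (Nat.card V : ℂ) / ℓ * (Nat.card G : ℂ)⁻¹ * ∑ g, eh M e g * χ g⁻¹ := by
        rw [finsum_eq_sum_of_fintype, hf, Finset.mul_sum, Finset.mul_sum]
        exact Finset.sum_congr rfl fun g _ => by ring
      rw [h2, h1]
      split_ifs with h3
      · have h4 := ha _ h3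
        have h5 : (Nat.card V : ℂ) / ℓ * (Nat.card G : ℂ)⁻¹ * χ 1⁻¹ =
            (Nat.card V * χ 1⁻¹ / Nat.card G : ℂ) / ℓ := by ring
        rw [h5]
        exact h4
      · rw [mul_zero]
        exact (RM M).zero_mem
  obtain ⟨-, -, y, hy, hey, hrel, -⟩ := fmg ℓ M hM G e he V hV
  obtain ⟨m, hm⟩ : ∃ m, m = V.relIndex (Cu y) := ⟨_, rfl⟩
  have hVC : V ≤ Cu y := by
    intro v hv
    exact Subgroup.mem_centralizer_singleton_iff.2 (Subgroup.mem_centralizer_iff.1 hy v hv)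
  have hcard : Nat.card (Cu y) = Nat.card V * m := by
    have h1 := Subgroup.card_mul_index (V.subgroupOf (Cu y))
    rw [Nat.card_congr (Subgroup.subgroupOfEquivOfLe hVC).toEquiv] at h1
    rw [hm]
    exact h1.symm
  have hm0 : (m : ℂ) ≠ 0 := by
    have h1 : m ≠ 0 := by
      intro h0
      rw [h0, mul_zero] at hcard
      exact Nat.card_pos.ne' hcard
    exact_mod_cast h1
  obtain ⟨h4, h5⟩ := (idm M G e he.1).1 y
  have h5' : rr M (eh M e y) ≠ 0 := by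
    rw [h5]
    exact hey
  obtain ⟨h6, h7⟩ := inv_RM h4 h5'
  have h2 : eh M e y / ℓ ∈ RM M := by
    have h3 : eh M e y / ℓ = m * (f y / Nat.card (Cu y)) := by
      rw [hf, hcard]
      push_cast
      field_simp
    rw [h3]
    exact (RM M).mul_mem (rr_nat m).1 (hfP y)
  have h8 : (ℓ : ℂ)⁻¹ ∈ RM M := by
    have h9 : (ℓ : ℂ)⁻¹ = (eh M e y)⁻¹ * (eh M e y / ℓ) := by
      rw [mul_div_assoc', inv_mul_cancel₀ h7, one_div]
    rw [h9]
    exact (RM M).mul_mem h6 h2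
  have h10 := rr_mul (M := M) (rr_nat ℓ).1 h8
  have h11 : rr M (ℓ : ℂ) = 0 := by
    have h12 := (dvd_of_rr (M := M) hℓ hM (n := (ℓ : ℤ))).2 dvd_rfl
    exact_mod_cast h12
  rw [mul_inv_cancel₀ hℓ0, rr_one, h11, zero_mul] at h10
  exact one_ne_zero h10

end Pool.Agent.PP.SE.H30
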