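import Pool.Agent.ASE.Stmts5

/-!
# Squad ASE, row TS5: the relation, without the evaluation of the deviations
-/

open scoped BigOperators

set_option autoImplicit false

noncomputable section

namespace Pool.Agent.PP.SE.H30

open Pool.Agent.Helper51_AWC Pool.Agent.Helper79_WRA Pool.Agent.PP Pool.Agent.PP.KF
open Pool.Agent.PP.K9 Pool.Agent.PP.K9.H97 Pool.Agent.PP.H75 Pool.Agent.PP.T3 Pool.Agent.PP.SO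
open Pool.Agent.PP.SD

attribute [local instance] Ideal.Quotient.field

namespace TS5

section gen

/-- the alternating sum over the labels -/
def Al {α : Type} (A Bs : Set α) (f0 : ℂ) (f1 f2 : α → ℂ) (f3 : α → α → ℂ) : ℂ :=
  f0 - (∑ᶠ a ∈ A, f1 a) - (∑ᶠ b ∈ Bs, f2 b) + ∑ᶠ a ∈ A, ∑ᶠ b ∈ Bs, f3 a b

variable {α : Type} [Finite α]

theorem al_add (A Bs : Set α) (f0 g0 : ℂ) (f1 f2 g1 g2 : α → ℂ) (f3 g3 : α → α → ℂ) :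
    Al A Bs (f0 + g0) (fun a => f1 a + g1 a) (fun b => f2 b + g2 b)
      (fun a b => f3 a b + g3 a b) = Al A Bs f0 f1 f2 f3 + Al A Bs g0 g1 g2 g3 := by
  unfold Al
  simp only [finsum_mem_add_distrib (Set.toFinite A), finsum_mem_add_distrib (Set.toFinite Bs)]
  ring

omit [Finite α] in
theorem al_congr (A Bs : Set α) (f0 g0 : ℂ) (f1 f2 g1 g2 : α → ℂ) (f3 g3 : α → α → ℂ)
    (h0 : f0 = g0) (h1 : ∀ a ∈ A, f1 a = g1 a) (h2 : ∀ b ∈ Bs, f2 b = g2 b)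
    (h3 : ∀ a ∈ A, ∀ b ∈ Bs, f3 a b = g3 a b) :
    Al A Bs f0 f1 f2 f3 = Al A Bs g0 g1 g2 g3 := by
  unfold Al
  rw [h0, finsum_mem_congr rfl h1, finsum_mem_congr rfl h2,
    finsum_mem_congr rfl fun a ha => finsum_mem_congr rfl (h3 a ha)]

theorem al_sum {ι : Type} [Finite ι] (A Bs : Set α) (w : ι → ℂ) (f0 : ι → ℂ)
    (f1 f2 : ι → α → ℂ) (f3 : ι → α → α → ℂ) :
    ∑ᶠ i, w i * Al A Bs (f0 i) (f1 i) (f2 i) (f3 i) =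
      Al A Bs (∑ᶠ i, w i * f0 i) (fun a => ∑ᶠ i, w i * f1 i a) (fun a => ∑ᶠ i, w i * f2 i a)
        (fun a b => ∑ᶠ i, w i * f3 i a b) := by
  classical
  cases nonempty_fintype ι
  have e : ∀ (s : Set α) (f : α → ℂ), ∑ᶠ a ∈ s, f a = ∑ a ∈ (Set.toFinite s).toFinset, f a :=
    fun s f => finsum_mem_eq_finite_toFinset_sum f _
  unfold Al
  simp only [e, finsum_eq_sum_of_fintype, mul_add, mul_sub, Finset.mul_sum,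
    Finset.sum_add_distrib, Finset.sum_sub_distrib]
  rw [Finset.sum_comm (s := Finset.univ) (t := (Set.toFinite A).toFinset)
      (f := fun i a => w i * f1 i a),
    Finset.sum_comm (s := Finset.univ) (t := (Set.toFinite Bs).toFinset)
      (f := fun i a => w i * f2 i a),
    Finset.sum_comm (s := Finset.univ) (t := (Set.toFinite A).toFinset)
      (f := fun i a => ∑ b ∈ (Set.toFinite Bs).toFinset, w i * f3 i a b)]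
  congr 1
  refine Finset.sum_congr rfl fun a _ => ?_
  rw [Finset.sum_comm]

/-- sums over a set with a condition -/
theorem fsum_ite {A M : Type} [AddCommMonoid M] (s : Set A) (p : A → Prop) [DecidablePred p]
    (f : A → M) : ∑ᶠ i ∈ s, (if p i then f i else 0) = ∑ᶠ i ∈ {i | i ∈ s ∧ p i}, f i := by
  classical
  refine finsum_congr fun i => ?_
  rw [finsum_eq_if, finsum_eq_if]
  by_cases h1 : i ∈ s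
  · by_cases h2 : p i
    · rw [if_pos h1, if_pos h2, if_pos (show i ∈ {i | i ∈ s ∧ p i} from ⟨h1, h2⟩)]
    · rw [if_pos h1, if_neg h2, if_neg (fun h : i ∈ {i | i ∈ s ∧ p i} => h2 h.2)]
  · rw [if_neg h1, if_neg (fun h : i ∈ {i | i ∈ s ∧ p i} => h1 h.1)]

/-- sums over a set of a finite type -/
theorem fsum_univ {A M : Type} [Fintype A] [AddCommMonoid M] (s : Set A)
    [DecidablePred (· ∈ s)] (f : A → M) :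
    ∑ᶠ i ∈ s, f i = ∑ i, if i ∈ s then f i else 0 := by
  rw [finsum_eq_sum_of_fintype]
  exact Finset.sum_congr rfl fun i _ => finsum_eq_if

theorem cast_fsum {A : Type} [Finite A] (s : Set A) (f : A → ℚ) :
    ((∑ᶠ i ∈ s, f i : ℚ) : ℂ) = ∑ᶠ i ∈ s, (f i : ℂ) := by
  have h := (Rat.castHom ℂ).toAddMonoidHom.map_finsum_mem f (Set.toFinite s)
  exact h

theorem rm_fsum {M : Ideal (integralClosure ℤ ℂ)} [M.IsMaximal] {A : Type} {s : Set A}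
    {f : A → ℂ} (h : ∀ i ∈ s, f i ∈ RM M) : ∑ᶠ i ∈ s, f i ∈ RM M :=
  finsum_mem_induction (· ∈ RM M) (zero_mem _) (fun _ _ => add_mem) h

end gen

section loc

variable {V₀ : Type} [CommGroup V₀] {n : ℕ}

theorem q_ne {L : Set (SO.SS n V₀)} {σ : MulAut V₀} (h : ∀ s ∈ L, σ s.2.2.2 = s.2.2.1)
    (hp : pL L ≠ ⊥) : qL L ≠ ⊥ := by
  intro hq
  apply hp
  rw [eq_bot_iff, pL, Subgroup.closure_le]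
  rintro p ⟨s, hs, rfl⟩
  have h1 : s.2.2.2 ∈ qL L := Subgroup.subset_closure ⟨s, hs, rfl⟩
  rw [hq, Subgroup.mem_bot] at h1
  have h2 := h s hs
  rw [h1, map_one] at h2
  exact h2.symm

/-- the sum over `σ` of the exact local parts -/
theorem sum_p12 [Finite V₀] (ℓ : ℕ) (E₀ : Subgroup (MulAut V₀)) (U : Subgroup V₀ → ℚ)
    (fx : Subgroup V₀ → MulAut V₀ → ℚ) (c d : V₀) (F : Set (SO.SS n V₀) → ℚ) :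
    ∑ᶠ σ ∈ {σ : MulAut V₀ | σ ∈ E₀}, P12S ℓ E₀ U fx c d σ F =
      ∑ᶠ L ∈ {L : Set (SO.SS n V₀) | pL L ≠ ⊥ ∧ qL L ≠ ⊥}, mob F L * P12 ℓ E₀ U fx c d L := by
  classical
  have hfin : Finite (MulAut V₀) := inferInstance
  cases nonempty_fintype (MulAut V₀)
  cases nonempty_fintype (Set (SO.SS n V₀))
  unfold P12S P12
  simp only [fsum_univ]
  have e1 : ∀ σ : MulAut V₀, (if σ ∈ {σ : MulAut V₀ | σ ∈ E₀} then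
      (∑ L : Set (SO.SS n V₀), if L ∈ {L : Set (SO.SS n V₀) | pL L ≠ ⊥ ∧
        (∀ s ∈ L, σ s.2.2.2 = s.2.2.1) ∧ aL (c * σ d) L ≠ ⊥} then
        mob F L * (cS U c d σ (pL L) * (ux U (aL (c * σ d) L) (c * σ d) *
          (N12 E₀ (c * σ d) L + M12 ℓ E₀ fx (c * σ d) L))) else 0) else 0) =
      ∑ L : Set (SO.SS n V₀), if σ ∈ E₀ ∧ pL L ≠ ⊥ ∧ (∀ s ∈ L, σ s.2.2.2 = s.2.2.1) ∧
        aL (c * σ d) L ≠ ⊥ then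
        mob F L * (cS U c d σ (pL L) * (ux U (aL (c * σ d) L) (c * σ d) *
          (N12 E₀ (c * σ d) L + M12 ℓ E₀ fx (c * σ d) L))) else 0 := by
    intro σ
    by_cases h : σ ∈ E₀
    · rw [if_pos (show σ ∈ {σ : MulAut V₀ | σ ∈ E₀} from h)]
      refine Finset.sum_congr rfl fun L _ => ?_
      by_cases h' : pL L ≠ ⊥ ∧ (∀ s ∈ L, σ s.2.2.2 = s.2.2.1) ∧ aL (c * σ d) L ≠ ⊥
      · rw [if_pos (show L ∈ {L : Set (SO.SS n V₀) | pL L ≠ ⊥ ∧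
          (∀ s ∈ L, σ s.2.2.2 = s.2.2.1) ∧ aL (c * σ d) L ≠ ⊥} from h'), if_pos ⟨h, h'⟩]
      · rw [if_neg (fun hh : L ∈ {L : Set (SO.SS n V₀) | pL L ≠ ⊥ ∧
          (∀ s ∈ L, σ s.2.2.2 = s.2.2.1) ∧ aL (c * σ d) L ≠ ⊥} => h' hh),
          if_neg (fun hh => h' hh.2)]
    · rw [if_neg (fun hh : σ ∈ {σ : MulAut V₀ | σ ∈ E₀} => h hh)]
      symm
      refine Finset.sum_eq_zero fun L _ => ?_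
      rw [if_neg (fun hh => h hh.1)]
  have e2 : ∀ L : Set (SO.SS n V₀), (if L ∈ {L : Set (SO.SS n V₀) | pL L ≠ ⊥ ∧ qL L ≠ ⊥} then
      mob F L * (∑ σ : MulAut V₀, if σ ∈ {σ | σ ∈ EL E₀ L ∧ aL (c * σ d) L ≠ ⊥} then
        cS U c d σ (pL L) * (ux U (aL (c * σ d) L) (c * σ d) *
          (N12 E₀ (c * σ d) L + M12 ℓ E₀ fx (c * σ d) L)) else 0) else 0) =
      ∑ σ : MulAut V₀, if σ ∈ E₀ ∧ pL L ≠ ⊥ ∧ (∀ s ∈ L, σ s.2.2.2 = s.2.2.1) ∧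
        aL (c * σ d) L ≠ ⊥ then
        mob F L * (cS U c d σ (pL L) * (ux U (aL (c * σ d) L) (c * σ d) *
          (N12 E₀ (c * σ d) L + M12 ℓ E₀ fx (c * σ d) L))) else 0 := by
    intro L
    by_cases h : pL L ≠ ⊥ ∧ qL L ≠ ⊥
    · rw [if_pos (show L ∈ {L : Set (SO.SS n V₀) | pL L ≠ ⊥ ∧ qL L ≠ ⊥} from h), Finset.mul_sum]
      refine Finset.sum_congr rfl fun σ _ => ?_
      by_cases h' : σ ∈ EL E₀ L ∧ aL (c * σ d) L ≠ ⊥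
      · rw [if_pos (show σ ∈ {σ | σ ∈ EL E₀ L ∧ aL (c * σ d) L ≠ ⊥} from h'),
          if_pos ⟨h'.1.1, h.1, h'.1.2, h'.2⟩]
      · rw [if_neg (fun hh : σ ∈ {σ | σ ∈ EL E₀ L ∧ aL (c * σ d) L ≠ ⊥} => h' hh), mul_zero,
          if_neg (fun hh => h' ⟨⟨hh.1, hh.2.2.1⟩, hh.2.2.2⟩)]
    · rw [if_neg (fun hh : L ∈ {L : Set (SO.SS n V₀) | pL L ≠ ⊥ ∧ qL L ≠ ⊥} => h hh)]
      symm
      refine Finset.sum_eq_zero fun σ _ => ?_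
      rw [if_neg (fun hh => h ⟨hh.2.1, q_ne hh.2.2.1 hh.2.1⟩)]
  rw [Finset.sum_congr rfl fun σ _ => e1 σ, Finset.sum_congr rfl fun L _ => e2 L,
    Finset.sum_comm]

theorem hm_one {ℓ : ℕ} {ρ : V₀ → ZMod ℓ} (h : Hm ρ) : ρ 1 = 0 := by
  have h1 := h 1 1
  rw [mul_one] at h1
  exact (left_eq_add.1 h1)

theorem lf_one {ℓ : ℕ} {ρ : V₀ → ZMod ℓ} (h : Hm ρ) {x : V₀ → ℤ} (hx : Lf ρ x) : x 1 = 0 :=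
  (hx 1).2 (hm_one h)

/-- the alternating sum of the functions `F12` -/
theorem f12_alt {ℓ : ℕ} (x₁ x₂ : V₀ → ℤ) (Ψ M₁ M₂ : Set (SO.SS n V₀) → ℚ)
    (K : Set (Fin n × V₀ × V₀) → ℚ) (c d c' d' : V₀) (τ : Set (SO.SS n V₀)) (δ : ℚ)
    (hδ : δ = (((x₁ c⁻¹ - x₁ c'⁻¹) * (x₂ d⁻¹ - x₂ d'⁻¹) : ℤ) : ℚ) / (ℓ : ℚ) ^ 2)
    {i : Decidable (Fre τ)} :
    F12 ℓ x₁ x₂ Ψ M₁ M₂ K c d τ - F12 ℓ x₁ x₂ Ψ M₁ M₂ K c' d τ -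
      F12 ℓ x₁ x₂ Ψ M₁ M₂ K c d' τ + F12 ℓ x₁ x₂ Ψ M₁ M₂ K c' d' τ =
      if Fre τ then δ else 0 := by
  unfold F12
  by_cases h : Fre τ
  · rw [if_pos h, if_pos h, if_pos h, if_pos h, if_pos h, hδ]
    push_cast
    ring
  · rw [if_neg h, if_neg h, if_neg h, if_neg h, if_neg h]
    ring

end loc

section blk

variable {V₀ G : Type} [CommGroup V₀] [Group G] {M : Ideal (integralClosure ℤ ℂ)} [M.IsMaximal]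

omit [M.IsMaximal] in
theorem nn_irr (e : G → FF M) (f : (G → ℂ) → ℂ)
    (h : ∀ χ ∈ Irr G, χ ∉ IrrE M e → f χ = 0) :
    ∑ᶠ χ ∈ Irr G, f χ = ∑ᶠ χ ∈ IrrE M e, f χ := by
  classical
  refine finsum_congr fun χ => ?_
  rw [finsum_eq_if, finsum_eq_if]
  by_cases h1 : χ ∈ IrrE M e
  · rw [if_pos h1.1, if_pos h1]
  · by_cases h2 : χ ∈ Irr G
    · rw [if_pos h2, if_neg h1, h χ h2 h1]
    · rw [if_neg h2, if_neg h1]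

/-- an integer times a sum of products of elements of `ℓ RM` divided by `ℓ ^ 2` -/
theorem rm_prod {ℓ : ℕ} (z : ℤ) {A : Type} {s : Set A} {f g : A → ℂ} [Finite s]
    (hf : ∀ i ∈ s, f i / ℓ ∈ RM M) (hg : ∀ i ∈ s, g i / ℓ ∈ RM M) :
    ((z : ℤ) : ℂ) / (ℓ : ℂ) ^ 2 * ∑ᶠ i ∈ s, f i * g i ∈ RM M := by
  have h1 : ((z : ℤ) : ℂ) / (ℓ : ℂ) ^ 2 * ∑ᶠ i ∈ s, f i * g i =
      (z : ℂ) * ∑ᶠ i ∈ s, (f i / ℓ) * (g i / ℓ) := by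
    rw [div_mul_eq_mul_div, mul_div_assoc]
    congr 1
    rw [div_eq_mul_inv, mul_comm, mul_finsum_mem]
    refine finsum_mem_congr rfl fun i _ => ?_
    ring
  rw [h1]
  exact mul_mem (intCast_mem _ _) (rm_fsum fun i hi => mul_mem (hf i hi) (hg i hi))

end blk

end TS5

open TS5 in
open Classical in
/-- TS5 -/
theorem ts5 (hLT2 : Lt2Stmt) (hLMN : LmnStmt) (hLET : LetStmt) (hTS1 : Ts1Stmt) (hTS2 : Ts2Stmt)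
    (hTS3 : Ts3Stmt) (hTS4 : Ts4Stmt) (hXEM : XemStmt) (hETV : EtvStmt) (hFVA : FvaStmt)
    (hFT3 : Ft3Stmt) (hPRB : PrbStmt) (hCZB : CzbStmt) : Ts5Stmt := by
  intro ℓ hℓ M _ hM hℓ2 V₀ G _ _ _ _ E₀ hFq B hSd D hRs n m hPE ρ₁ ρ₂ x₁ x₂ h1 h2 hx1 hx2
    F₁₃ Ψ M₁ M₂ K hFE hRel c d hc hd
  have hSb : Sb ℓ M E₀ B := hSd.toSb
  have hprb := fun a : Subgroup V₀ => hPRB ℓ V₀ E₀ hFq a
  have hpr : ∀ a ∈ RL ℓ E₀, ∀ v, pr ℓ E₀ a v ∈ a := fun a ha => (hprb a).2.2.2.2.1 ha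
  set A : Set (Subgroup V₀) := {a : Subgroup V₀ | a ∈ RL ℓ E₀ ∧ c ∉ a} with hA
  set Bs : Set (Subgroup V₀) := {b : Subgroup V₀ | b ∈ RL ℓ E₀ ∧ d ∉ b} with hBs
  -- the sum over the labels is integral
  have hS : Al A Bs (T2 B m (mnl E₀ B c) (mnl E₀ B d) F₁₃ (F12 ℓ x₁ x₂ Ψ M₁ M₂ K c d))
      (fun a => T2 B m (etl B D a (pr ℓ E₀ a c)) (mnl E₀ B d) F₁₃
        (F12 ℓ x₁ x₂ Ψ M₁ M₂ K (pr ℓ E₀ a c) d))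
      (fun b => T2 B m (mnl E₀ B c) (etl B D b (pr ℓ E₀ b d)) F₁₃
        (F12 ℓ x₁ x₂ Ψ M₁ M₂ K c (pr ℓ E₀ b d)))
      (fun a b => T2 B m (etl B D a (pr ℓ E₀ a c)) (etl B D b (pr ℓ E₀ b d)) F₁₃
        (F12 ℓ x₁ x₂ Ψ M₁ M₂ K (pr ℓ E₀ a c) (pr ℓ E₀ b d))) ∈ RM M := by
    have lc := hLMN ℓ M hM hℓ2 V₀ G E₀ hFq B hSd c hc
    have ld := hLMN ℓ M hM hℓ2 V₀ G E₀ hFq B hSd d hd
    have le : ∀ a ∈ RL ℓ E₀, ∀ v, Lab ℓ B (pr ℓ E₀ a v) (etl B D a (pr ℓ E₀ a v)) :=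
      fun a ha v => hLET ℓ M hM hℓ2 V₀ G E₀ hFq B hSb D hRs a ha _ (hpr a ha v)
    refine add_mem (sub_mem (sub_mem ?_ (rm_fsum fun a ha => ?_)) (rm_fsum fun b hb => ?_))
      (rm_fsum fun a ha => rm_fsum fun b hb => ?_)
    · exact hLT2 ℓ M hM V₀ G B n m c d _ _ lc ld F₁₃ _ (hRel _ _)
    · exact hLT2 ℓ M hM V₀ G B n m _ d _ _ (le a ha.1 c) ld F₁₃ _ (hRel _ _)
    · exact hLT2 ℓ M hM V₀ G B n m c _ _ _ lc (le b hb.1 d) F₁₃ _ (hRel _ _)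
    · exact hLT2 ℓ M hM V₀ G B n m _ _ _ _ (le a ha.1 c) (le b hb.1 d) F₁₃ _ (hRel _ _)
  -- the decomposition of the sums `T2`
  have hY : ∀ (kc kd : V₀) (α β : Subgroup V₀ → G → ℂ), (∀ x g, α ⊥ (x * g * x⁻¹) = α ⊥ g) →
      (∀ x g, β ⊥ (x * g * x⁻¹) = β ⊥ g) →
      T2 B m α β F₁₃ (F12 ℓ x₁ x₂ Ψ M₁ M₂ K kc kd) =
        (∑ᶠ L : Set (SO.SS n V₀), ((mob F₁₃ L : ℚ) : ℂ) * X13 B m α β L) +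
        (((x₁ kc⁻¹ * x₂ kd⁻¹ : ℤ) : ℂ) / (ℓ : ℂ) ^ 2 *
          (∑ᶠ χ ∈ Irr G, cv (α ⊥) χ * cv (β ⊥) χ) +
          X2N B m α β (F12 ℓ x₁ x₂ Ψ M₁ M₂ K kc kd)) := by
    intro kc kd α β hα hβ
    rw [← hTS2 ℓ M hM hℓ2 V₀ G E₀ hFq B hSb D hRs n m hPE ρ₁ ρ₂ x₁ x₂ h1 h2 hx1 hx2 F₁₃ Ψ M₁ M₂ K
      hFE kc kd α β hα hβ]
    exact finsum_add_distrib (Set.toFinite _) (Set.toFinite _)
  obtain ⟨-, -, xe3, xe4, xe5⟩ := hXEM ℓ M hM hℓ2 V₀ G E₀ hFq B hSb D hRs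
  have e1 := hS
  rw [al_congr A Bs _ _ _ _ _ _ _ _ (hY c d _ _ (xe4 c hc).1 (xe4 d hd).1)
    (fun a ha => hY (pr ℓ E₀ a c) d _ _ (xe3 a ha.1 _ (hpr a ha.1 c)).1 (xe4 d hd).1)
    (fun b hb => hY c (pr ℓ E₀ b d) _ _ (xe4 c hc).1 (xe3 b hb.1 _ (hpr b hb.1 d)).1)
    (fun a ha b hb => hY (pr ℓ E₀ a c) (pr ℓ E₀ b d) _ _ (xe3 a ha.1 _ (hpr a ha.1 c)).1
      (xe3 b hb.1 _ (hpr b hb.1 d)).1), al_add, al_add] at e1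
  have e2 := (al_sum A Bs _ _ _ _ _).symm.trans
    (hTS1 ℓ M hM hℓ2 V₀ G E₀ hFq B hSd D hRs n m hPE ρ₁ ρ₂ h1 h2 F₁₃ hFE.z13 c d hc hd)
  have e3 : Al A Bs (X2N B m (mnl E₀ B c) (mnl E₀ B d) (F12 ℓ x₁ x₂ Ψ M₁ M₂ K c d))
      (fun a => X2N B m (etl B D a (pr ℓ E₀ a c)) (mnl E₀ B d)
        (F12 ℓ x₁ x₂ Ψ M₁ M₂ K (pr ℓ E₀ a c) d))
      (fun b => X2N B m (mnl E₀ B c) (etl B D b (pr ℓ E₀ b d))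
        (F12 ℓ x₁ x₂ Ψ M₁ M₂ K c (pr ℓ E₀ b d)))
      (fun a b => X2N B m (etl B D a (pr ℓ E₀ a c)) (etl B D b (pr ℓ E₀ b d))
        (F12 ℓ x₁ x₂ Ψ M₁ M₂ K (pr ℓ E₀ a c) (pr ℓ E₀ b d))) = _ :=
    hTS3 ℓ M hM hℓ2 V₀ G E₀ hFq B hSb D hRs n m hPE
      (fun kc kd => F12 ℓ x₁ x₂ Ψ M₁ M₂ K kc kd) c d hc hd
  -- the terms `T0S`
  obtain ⟨r, hr0, hnr⟩ := hPE.pw
  have hn : 0 < n := by
    rw [hnr]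
    exact pow_pos hℓ.out.pos r
  have hF := hFVA ℓ V₀ hFq.ex n ρ₁ ρ₂ ⟨r, hr0, hnr⟩ h1 h2 x₁ x₂ hx1 hx2 F₁₃ Ψ M₁ M₂ K hFE c d
  have e4 := fun σ (hσ : σ ∈ E₀) => hTS4 ℓ M hM hℓ2 V₀ G E₀ hFq B hSd D hRs n m hn hPE
    (F12 ℓ x₁ x₂ Ψ M₁ M₂ K c d) (((x₁ c⁻¹ * x₂ d⁻¹ : ℤ) : ℚ) / (ℓ : ℚ) ^ 2)
    (fun κ₁ κ₂ => ((x₁ κ₁ * x₂ κ₂ : ℤ) : ℚ) / (ℓ : ℚ) ^ 2)
    (fun τ hτ h => hF.2.1 τ hτ fun s hs => by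
      rw [(h s hs).1, (h s hs).2]
      exact ⟨hm_one h1, hm_one h2⟩)
    (fun κ₁ κ₂ I hI => by
      rw [hF.2.2.1 κ₁ κ₂ I hI]
      push_cast
      ring) c d σ hσ
  -- the sums over the block
  have e5 : Al A Bs
      (((x₁ c⁻¹ * x₂ d⁻¹ : ℤ) : ℂ) / (ℓ : ℂ) ^ 2 *
        (∑ᶠ χ ∈ Irr G, cv (mnl E₀ B c ⊥) χ * cv (mnl E₀ B d ⊥) χ))
      (fun a => ((x₁ (pr ℓ E₀ a c)⁻¹ * x₂ d⁻¹ : ℤ) : ℂ) / (ℓ : ℂ) ^ 2 *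
        (∑ᶠ χ ∈ Irr G, cv (etl B D a (pr ℓ E₀ a c) ⊥) χ * cv (mnl E₀ B d ⊥) χ))
      (fun b => ((x₁ c⁻¹ * x₂ (pr ℓ E₀ b d)⁻¹ : ℤ) : ℂ) / (ℓ : ℂ) ^ 2 *
        (∑ᶠ χ ∈ Irr G, cv (mnl E₀ B c ⊥) χ * cv (etl B D b (pr ℓ E₀ b d) ⊥) χ))
      (fun a b => ((x₁ (pr ℓ E₀ a c)⁻¹ * x₂ (pr ℓ E₀ b d)⁻¹ : ℤ) : ℂ) / (ℓ : ℂ) ^ 2 *
        (∑ᶠ χ ∈ Irr G, cv (etl B D a (pr ℓ E₀ a c) ⊥) χ *
          cv (etl B D b (pr ℓ E₀ b d) ⊥) χ)) =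
      ((x₁ c⁻¹ * x₂ d⁻¹ : ℤ) : ℂ) / (ℓ : ℂ) ^ 2 * NN B (mnl E₀ B c ⊥) (mnl E₀ B d ⊥) -
      (∑ᶠ a ∈ A, ((x₁ (pr ℓ E₀ a c)⁻¹ * x₂ d⁻¹ : ℤ) : ℂ) / (ℓ : ℂ) ^ 2 *
        NN B (etl B D a (pr ℓ E₀ a c) ⊥) (mnl E₀ B d ⊥)) -
      (∑ᶠ b ∈ Bs, ((x₁ c⁻¹ * x₂ (pr ℓ E₀ b d)⁻¹ : ℤ) : ℂ) / (ℓ : ℂ) ^ 2 *
        NN B (mnl E₀ B c ⊥) (etl B D b (pr ℓ E₀ b d) ⊥)) +
      ∑ᶠ a ∈ A, ∑ᶠ b ∈ Bs,
        ((x₁ (pr ℓ E₀ a c)⁻¹ * x₂ (pr ℓ E₀ b d)⁻¹ : ℤ) : ℂ) / (ℓ : ℂ) ^ 2 *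
        (∑ᶠ χ ∈ Irr G, cv (etl B D a (pr ℓ E₀ a c) ⊥) χ *
          cv (etl B D b (pr ℓ E₀ b d) ⊥) χ) := by
    refine al_congr A Bs _ _ _ _ _ _ _ _ ?_ (fun a ha => ?_) (fun b hb => ?_)
      (fun a ha b hb => rfl)
    · rw [nn_irr B.e _ fun χ hχ h => by rw [(xe4 c hc).2 χ hχ h, zero_mul]]
      rfl
    · rw [nn_irr B.e _ fun χ hχ h => by rw [(xe4 d hd).2 χ hχ h, mul_zero]]
      rfl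
    · rw [nn_irr B.e _ fun χ hχ h => by rw [(xe4 c hc).2 χ hχ h, zero_mul]]
      rfl
  have hEfin : (IrrE M B.e).Finite := by
    cases nonempty_fintype G
    exact irr_finite'.subset fun χ h => h.1
  have e6 : (∑ᶠ a ∈ A, ∑ᶠ b ∈ Bs,
        ((x₁ (pr ℓ E₀ a c)⁻¹ * x₂ (pr ℓ E₀ b d)⁻¹ : ℤ) : ℂ) / (ℓ : ℂ) ^ 2 *
        (∑ᶠ χ ∈ Irr G, cv (etl B D a (pr ℓ E₀ a c) ⊥) χ *
          cv (etl B D b (pr ℓ E₀ b d) ⊥) χ)) ∈ RM M := by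
    refine rm_fsum fun a ha => rm_fsum fun b hb => ?_
    by_cases ca : pr ℓ E₀ a c = 1
    · rw [ca, inv_one, lf_one h1 hx1, zero_mul, Int.cast_zero, zero_div, zero_mul]
      exact zero_mem _
    rw [nn_irr B.e _ fun χ hχ h => by
      rw [xe5 a ha.1 _ (hpr a ha.1 c) ca χ hχ h, zero_mul]]
    have : Finite (IrrE M B.e) := hEfin
    exact rm_prod _ (fun χ h => hETV ℓ M hM hℓ2 V₀ G E₀ hFq B hSb D hRs a ha.1 _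
      (hpr a ha.1 c) χ h) (fun χ h => hETV ℓ M hM hℓ2 V₀ G E₀ hFq B hSb D hRs b hb.1 _
      (hpr b hb.1 d) χ h)
  -- the last sum of TS3
  have e7 : ∀ σ ∈ E₀, (∑ᶠ a ∈ {a : Subgroup V₀ | a ∈ RL ℓ E₀ ∧ c ∉ a ∧ σ d ∉ a},
      (nS E₀ a : ℂ)⁻¹ * FWS B m σ a (fun τ => F12 ℓ x₁ x₂ Ψ M₁ M₂ K c d τ -
        F12 ℓ x₁ x₂ Ψ M₁ M₂ K (pr ℓ E₀ a c) d τ -
        F12 ℓ x₁ x₂ Ψ M₁ M₂ K c (σ⁻¹ (pr ℓ E₀ a (σ d))) τ +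
        F12 ℓ x₁ x₂ Ψ M₁ M₂ K (pr ℓ E₀ a c) (σ⁻¹ (pr ℓ E₀ a (σ d))) τ)
        (tk B (pr ℓ E₀ a (c * σ d)) (fun g => mulF (D.et a) (D.et a) g))) ∈ RM M := by
    intro σ hσ
    refine rm_fsum fun a ha => ?_
    have hab : a ≠ ⊥ := by
      rintro rfl
      have h3 := ha.1.1
      rw [Subgroup.card_bot] at h3
      exact hℓ.out.one_lt.ne h3
    have hκ := hpr a ha.1 (c * σ d)
    obtain ⟨-, -, cz3, cz4, -⟩ := hCZB ℓ M hM hℓ2 V₀ G E₀ hFq B hSb a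
    have k1 := hRs.e1 a hab
    have k2 := cz4 _ _ k1 k1
    have k3 := cz3 _ k2.1 _ hκ
    have hfun : (fun τ => F12 ℓ x₁ x₂ Ψ M₁ M₂ K c d τ -
        F12 ℓ x₁ x₂ Ψ M₁ M₂ K (pr ℓ E₀ a c) d τ -
        F12 ℓ x₁ x₂ Ψ M₁ M₂ K c (σ⁻¹ (pr ℓ E₀ a (σ d))) τ +
        F12 ℓ x₁ x₂ Ψ M₁ M₂ K (pr ℓ E₀ a c) (σ⁻¹ (pr ℓ E₀ a (σ d))) τ) =
        fun τ : Set (SO.SS n V₀) => if Fre τ then
          ((((x₁ c⁻¹ - x₁ (pr ℓ E₀ a c)⁻¹) *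
            (x₂ d⁻¹ - x₂ (σ⁻¹ (pr ℓ E₀ a (σ d)))⁻¹) : ℤ) : ℚ) / (ℓ : ℚ) ^ 2) else 0 :=
      funext fun τ => f12_alt x₁ x₂ Ψ M₁ M₂ K c d _ _ τ _ rfl
    rw [hfun, hFT3 ℓ M hM hℓ2 V₀ G E₀ hFq B hSb n m hPE a ha.1.1 σ hσ _ _ k3.1,
      finsum_mem_congr rfl fun χ hχ => by rw [k3.2 χ hχ, k2.2 χ hχ, ← sq]]
    have k4 := (hRs.e7 a ha.1 _ hκ).2
    have k5 : ((nS E₀ a : ℂ))⁻¹ ∈ RM M := inv_nat_RM hℓ.out hM (hprb a).2.2.2.2.2.2.2.1.2.2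
    have k6 : (nS E₀ a : ℂ)⁻¹ * (-(((((x₁ c⁻¹ - x₁ (pr ℓ E₀ a c)⁻¹) *
            (x₂ d⁻¹ - x₂ (σ⁻¹ (pr ℓ E₀ a (σ d)))⁻¹) : ℤ) : ℚ) / (ℓ : ℚ) ^ 2 : ℚ) : ℂ) *
        ∑ᶠ χ ∈ Ch B a, nu B χ (pr ℓ E₀ a (c * σ d)) * cv (D.et a) χ ^ 2) =
        -((nS E₀ a : ℂ)⁻¹ * ((((x₁ c⁻¹ - x₁ (pr ℓ E₀ a c)⁻¹) *
            (x₂ d⁻¹ - x₂ (σ⁻¹ (pr ℓ E₀ a (σ d)))⁻¹) : ℤ) : ℂ) *
        ((∑ᶠ χ ∈ Ch B a, nu B χ (pr ℓ E₀ a (c * σ d)) * cv (D.et a) χ ^ 2) /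
          (ℓ : ℂ) ^ 2))) := by
      push_cast
      ring
    rw [k6]
    exact neg_mem (mul_mem k5 (mul_mem (intCast_mem _ _) k4))
  have e8 : (∑ᶠ σ ∈ {σ : MulAut V₀ | σ ∈ E₀},
      ∑ᶠ a ∈ {a : Subgroup V₀ | a ∈ RL ℓ E₀ ∧ c ∉ a ∧ σ d ∉ a},
      (nS E₀ a : ℂ)⁻¹ * FWS B m σ a (fun τ => F12 ℓ x₁ x₂ Ψ M₁ M₂ K c d τ -
        F12 ℓ x₁ x₂ Ψ M₁ M₂ K (pr ℓ E₀ a c) d τ -
        F12 ℓ x₁ x₂ Ψ M₁ M₂ K c (σ⁻¹ (pr ℓ E₀ a (σ d))) τ +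
        F12 ℓ x₁ x₂ Ψ M₁ M₂ K (pr ℓ E₀ a c) (σ⁻¹ (pr ℓ E₀ a (σ d))) τ)
        (tk B (pr ℓ E₀ a (c * σ d)) (fun g => mulF (D.et a) (D.et a) g))) ∈ RM M :=
    rm_fsum fun σ hσ => e7 σ hσ
  -- the sum over `σ`
  have e9 : ∀ σ ∈ {σ : MulAut V₀ | σ ∈ E₀}, (T0S ℓ E₀ B D m c d σ (F12 ℓ x₁ x₂ Ψ M₁ M₂ K c d) +
      (∑ᶠ a ∈ A, (ux D.U a (σ d) : ℚ) * FWS B m σ a (fun τ => F12 ℓ x₁ x₂ Ψ M₁ M₂ K c d τ -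
        F12 ℓ x₁ x₂ Ψ M₁ M₂ K (pr ℓ E₀ a c) d τ) (tk B (pr ℓ E₀ a (c * σ d)) (D.et a))) +
      (∑ᶠ a ∈ {a : Subgroup V₀ | a ∈ RL ℓ E₀ ∧ σ d ∉ a}, (ux D.U a c : ℚ) *
        FWS B m σ a (fun τ => F12 ℓ x₁ x₂ Ψ M₁ M₂ K c d τ -
          F12 ℓ x₁ x₂ Ψ M₁ M₂ K c (σ⁻¹ (pr ℓ E₀ a (σ d))) τ)
          (tk B (pr ℓ E₀ a (c * σ d)) (D.et a))) +
      ∑ᶠ a ∈ {a : Subgroup V₀ | a ∈ RL ℓ E₀ ∧ c ∉ a ∧ σ d ∉ a}, (nS E₀ a : ℂ)⁻¹ *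
        FWS B m σ a (fun τ => F12 ℓ x₁ x₂ Ψ M₁ M₂ K c d τ -
        F12 ℓ x₁ x₂ Ψ M₁ M₂ K (pr ℓ E₀ a c) d τ -
        F12 ℓ x₁ x₂ Ψ M₁ M₂ K c (σ⁻¹ (pr ℓ E₀ a (σ d))) τ +
        F12 ℓ x₁ x₂ Ψ M₁ M₂ K (pr ℓ E₀ a c) (σ⁻¹ (pr ℓ E₀ a (σ d))) τ)
        (tk B (pr ℓ E₀ a (c * σ d)) (fun g => mulF (D.et a) (D.et a) g))) =
      (((P12S ℓ E₀ D.U D.fx c d σ (F12 ℓ x₁ x₂ Ψ M₁ M₂ K c d) : ℚ) : ℂ) -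
        (if c * σ d ≠ 1 then ((cS D.U c d σ (Subgroup.zpowers (c * σ d)) : ℚ) : ℂ) *
          (((x₁ (c * σ d)⁻¹ * x₂ (σ⁻¹ (c * σ d))⁻¹ : ℤ) : ℂ) / (ℓ : ℂ) ^ 2) *
            LL B (mnl E₀ B (c * σ d) ⊥) else 0)) +
      ((∑ᶠ a ∈ {a : Subgroup V₀ | a ∈ RL ℓ E₀ ∧ c * σ d ∉ a},
        (DAS ℓ E₀ B D c d σ a (F12 ℓ x₁ x₂ Ψ M₁ M₂ K c d) - (cS D.U c d σ a : ℚ) *
          FWS B m σ a (F12 ℓ x₁ x₂ Ψ M₁ M₂ K c d) (tk B (pr ℓ E₀ a (c * σ d)) (D.et a)))) +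
      (∑ᶠ a ∈ A, (ux D.U a (σ d) : ℚ) * FWS B m σ a (fun τ => F12 ℓ x₁ x₂ Ψ M₁ M₂ K c d τ -
        F12 ℓ x₁ x₂ Ψ M₁ M₂ K (pr ℓ E₀ a c) d τ) (tk B (pr ℓ E₀ a (c * σ d)) (D.et a))) +
      (∑ᶠ a ∈ {a : Subgroup V₀ | a ∈ RL ℓ E₀ ∧ σ d ∉ a}, (ux D.U a c : ℚ) *
        FWS B m σ a (fun τ => F12 ℓ x₁ x₂ Ψ M₁ M₂ K c d τ -
          F12 ℓ x₁ x₂ Ψ M₁ M₂ K c (σ⁻¹ (pr ℓ E₀ a (σ d))) τ)
          (tk B (pr ℓ E₀ a (c * σ d)) (D.et a)))) +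
      ∑ᶠ a ∈ {a : Subgroup V₀ | a ∈ RL ℓ E₀ ∧ c ∉ a ∧ σ d ∉ a}, (nS E₀ a : ℂ)⁻¹ *
        FWS B m σ a (fun τ => F12 ℓ x₁ x₂ Ψ M₁ M₂ K c d τ -
        F12 ℓ x₁ x₂ Ψ M₁ M₂ K (pr ℓ E₀ a c) d τ -
        F12 ℓ x₁ x₂ Ψ M₁ M₂ K c (σ⁻¹ (pr ℓ E₀ a (σ d))) τ +
        F12 ℓ x₁ x₂ Ψ M₁ M₂ K (pr ℓ E₀ a c) (σ⁻¹ (pr ℓ E₀ a (σ d))) τ)
        (tk B (pr ℓ E₀ a (c * σ d)) (fun g => mulF (D.et a) (D.et a) g)) := by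
    intro σ hσ
    rw [e4 σ hσ, finsum_mem_sub_distrib _ _ (Set.toFinite _)]
    have k : (if c * σ d ≠ 1 then ((cS D.U c d σ (Subgroup.zpowers (c * σ d)) *
        (((x₁ (c * σ d)⁻¹ * x₂ (σ⁻¹ (c * σ d))⁻¹ : ℤ) : ℚ) / (ℓ : ℚ) ^ 2) : ℚ) : ℂ) *
          LL B (mnl E₀ B (c * σ d) ⊥) else 0) =
        (if c * σ d ≠ 1 then ((cS D.U c d σ (Subgroup.zpowers (c * σ d)) : ℚ) : ℂ) *
          (((x₁ (c * σ d)⁻¹ * x₂ (σ⁻¹ (c * σ d))⁻¹ : ℤ) : ℂ) / (ℓ : ℂ) ^ 2) *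
            LL B (mnl E₀ B (c * σ d) ⊥) else 0) := by
      split_ifs
      · push_cast
        ring
      · rfl
    rw [k]
    ring
  have hEf : {σ : MulAut V₀ | σ ∈ E₀}.Finite := Set.toFinite _
  rw [e3.trans (finsum_mem_congr rfl e9), e5, e2, finsum_mem_add_distrib hEf,
    finsum_mem_add_distrib hEf, finsum_mem_sub_distrib _ _ hEf, fsum_ite, ← cast_fsum,
    sum_p12, show {i : MulAut V₀ | i ∈ {σ : MulAut V₀ | σ ∈ E₀} ∧ c * i d ≠ 1} =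
      {σ : MulAut V₀ | σ ∈ E₀ ∧ c * σ d ≠ 1} from rfl] at e1
  have e11 : ((PPE ℓ E₀ D.U D.fx c d F₁₃ (F12 ℓ x₁ x₂ Ψ M₁ M₂ K c d) : ℚ) : ℂ) =
      ((∑ᶠ L ∈ {L : Set (SO.SS n V₀) | pL L ≠ ⊥ ∧ qL L ≠ ⊥},
        mob F₁₃ L * P13 ℓ E₀ D.U D.fx c d L : ℚ) : ℂ) +
      ((∑ᶠ L ∈ {L : Set (SO.SS n V₀) | pL L ≠ ⊥ ∧ qL L ≠ ⊥},
        mob (F12 ℓ x₁ x₂ Ψ M₁ M₂ K c d) L * P12 ℓ E₀ D.U D.fx c d L : ℚ) : ℂ) := by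
    rw [← Rat.cast_add]
    congr 1
    exact finsum_mem_add_distrib (Set.toFinite _)
  refine (congrArg (· ∈ RM M) ?_).mp (sub_mem (sub_mem e1 e6) e8)
  rw [e11]
  ring

end Pool.Agent.PP.SE.H30
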