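import Pool.Agent.ASE.Stmts8
import Pool.Agent.Helper89_ASD.INA
import Pool.Agent.Helper86_ASD.LNJ
import Pool.Agent.Helper82_ASO.GPR

/-!
# Squad ASE, row XWD: the block `b W` of the group `T_(E₁) C(W)`
-/

open scoped BigOperators

set_option autoImplicit false
set_option linter.unusedSectionVars false

noncomputable section

namespace Pool.Agent.PP.SE.H30

open Pool.Agent.Helper51_AWC Pool.Agent.Helper79_WRA Pool.Agent.PP Pool.Agent.PP.KF
open Pool.Agent.PP.K9 Pool.Agent.PP.K9.H97 Pool.Agent.PP.H75 Pool.Agent.PP.T3 Pool.Agent.PP.SO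
open Pool.Agent.PP.SD
open Pool.Agent.PP.SD.H89 (bx_up ld_iso)
open Pool.Agent.PP.SO.H82 (conj_of_mem)

attribute [local instance] Ideal.Quotient.field

section grp

variable {F V₀ G : Type} [CommGroup V₀] [Group G]

/-- the elements of the product of two subgroups -/
theorem sup_dec {X C : Subgroup G} (h : ∀ t ∈ X, ∀ c ∈ C, t * c * t⁻¹ ∈ C) {x : G}
    (hx : x ∈ X ⊔ C) : ∃ t ∈ X, t⁻¹ * x ∈ C := by
  let Y : Subgroup G :=
    { carrier := {x | ∃ t ∈ X, t⁻¹ * x ∈ C}
      one_mem' := ⟨1, X.one_mem, by rw [inv_one, one_mul]; exact C.one_mem⟩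
      mul_mem' := by
        rintro a b ⟨t, ht, h1⟩ ⟨u, hu, h2⟩
        refine ⟨t * u, X.mul_mem ht hu, ?_⟩
        have e : (t * u)⁻¹ * (a * b) = (u⁻¹ * (t⁻¹ * a) * u⁻¹⁻¹) * (u⁻¹ * b) := by group
        rw [e]
        exact C.mul_mem (h _ (X.inv_mem hu) _ h1) h2
      inv_mem' := by
        rintro a ⟨t, ht, h1⟩
        refine ⟨t⁻¹, X.inv_mem ht, ?_⟩
        have e : t⁻¹⁻¹ * a⁻¹ = t * (t⁻¹ * a)⁻¹ * t⁻¹ := by group
        rw [e]
        exact h _ ht _ (C.inv_mem h1) }
  have hle : X ⊔ C ≤ Y := sup_le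
    (fun t ht => ⟨t, ht, by rw [inv_mul_cancel]; exact C.one_mem⟩)
    (fun c hc => ⟨1, X.one_mem, by rw [inv_one, one_mul]; exact hc⟩)
  exact hle hx

variable {E₁ : Subgroup (MulAut V₀)} {W : Subgroup V₀}

omit [Group G] in
theorem map_W (hinv : ∀ σ ∈ E₁, ∀ w ∈ W, σ w ∈ W) {σ : MulAut V₀} (hσ : σ ∈ E₁) :
    W.map σ.toMonoidHom = W := by
  apply le_antisymm
  · rintro _ ⟨w, hw, rfl⟩
    exact hinv σ hσ w hw
  · intro w hw
    exact ⟨σ⁻¹ w, hinv σ⁻¹ (E₁.inv_mem hσ) w hw, MulAut.apply_inv_self V₀ σ w⟩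

variable {B : Bk F V₀ G}

theorem c_nor {c : G} (hc : c ∈ B.C W) :
    c ∈ Subgroup.normalizer ((W.map B.i : Subgroup G) : Set G) := by
  rw [Subgroup.mem_normalizer_iff]
  intro x
  constructor
  · rintro ⟨w, hw, rfl⟩
    exact ⟨w, hw, (conj_of_mem B hc hw).symm⟩
  · rintro ⟨w, hw, hx⟩
    refine ⟨w, hw, ?_⟩
    have h2 : x = c⁻¹ * (c * x * c⁻¹) * c := by group
    rw [h2, ← hx]
    have h3 := conj_of_mem B ((B.C W).inv_mem hc) hw
    rw [inv_inv] at h3
    exact h3.symm

end grp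

section te

variable {V₀ G : Type} [CommGroup V₀] [Group G] {M : Ideal (integralClosure ℤ ℂ)} [M.IsMaximal]
  {E₁ : Subgroup (MulAut V₀)} {W : Subgroup V₀} {B : Bk (FF M) V₀ G}

theorem te_nor (hinv : ∀ σ ∈ E₁, ∀ w ∈ W, σ w ∈ W) {t : G} (ht : t ∈ TE B E₁) :
    t ∈ Subgroup.normalizer ((W.map B.i : Subgroup G) : Set G) := by
  obtain ⟨-, σ, hσ, h⟩ := ht
  rw [Subgroup.mem_normalizer_iff]
  intro x
  constructor
  · rintro ⟨w, hw, rfl⟩
    exact ⟨σ w, hinv σ hσ w hw, (h w).symm⟩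
  · rintro ⟨w, hw, hx⟩
    refine ⟨σ⁻¹ w, hinv σ⁻¹ (E₁.inv_mem hσ) w hw, ?_⟩
    have h1 := h (σ⁻¹ w)
    rw [MulAut.apply_inv_self] at h1
    have h2 : B.i (σ⁻¹ w) = t⁻¹ * (t * B.i (σ⁻¹ w) * t⁻¹) * t := by group
    rw [h2, h1, hx]
    group

end te

/-- XWD -/
theorem xwd (syd : SydStmt) (cjd : CjdStmt) : XwdStmt := by
  intro ℓ _ M _ hM hℓ2 V₀ G H _ _ _ _ _ _ E₀ hFq B hB W hW0 E₁ hE hSt hinv j hj hr
  have hF : GoodF ℓ (FF M) := H50.fld ℓ Fact.out M hM
  have hFq1 : Fq ℓ V₀ E₁ := ⟨hFq.ex, hFq.cd, fun h => hFq.cp (h.trans (Subgroup.card_dvd_of_le hE))⟩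
  refine ⟨hFq1, ?_⟩
  have hL := hB.ld
  have hlb := hB.lb W
  -- the group `X`
  have hTC : ∀ t ∈ TE B E₁, ∀ c, t * c * t⁻¹ ∈ B.C W ↔ c ∈ B.C W := by
    rintro t ⟨htT, σ, hσ, ht⟩ c
    have h1 := (cjd ℓ M hM hℓ2 V₀ G E₀ hFq B hB σ (hE hσ) t htT ht W).2.1 c
    rw [map_W hinv hσ] at h1
    exact h1
  have hTb : ∀ t ∈ TE B E₁, t ∈ stabF (B.b W) := by
    rintro t ⟨htT, σ, hσ, ht⟩
    have h1 := (cjd ℓ M hM hℓ2 V₀ G E₀ hFq B hB σ (hE hσ) t htT ht W).1
    rw [map_W hinv hσ] at h1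
    exact (cj_eq_iff t _).1 h1
  have hcT : ∀ c ∈ Tg B.i.range B.g, c ∈ B.C W → c ∈ TE B E₁ := by
    intro c hcT hcW
    obtain ⟨σ, hσ, h⟩ := hB.act c hcT
    refine ⟨hcT, σ, hSt ⟨hσ, fun w hw => ?_⟩, h⟩
    apply hB.inj
    rw [← h w]
    exact conj_of_mem B hcW hw
  obtain ⟨X, hXdef⟩ : ∃ X, X = j.range := ⟨_, rfl⟩
  rw [← hXdef] at hr
  have hTX' : TE B E₁ ≤ X := by
    rw [hr]
    exact le_sup_left
  have hCAX : B.C W ≤ X := by
    rw [hr]
    exact le_sup_right
  have hTint : ∀ x ∈ X, x ∈ Tg B.i.range B.g → x ∈ TE B E₁ := by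
    intro x hx hxT
    rw [hr] at hx
    obtain ⟨t, ht, h1⟩ := sup_dec (fun t ht c hc => (hTC t ht c).2 hc) hx
    have h2 : t⁻¹ * x ∈ TE B E₁ :=
      hcT _ (Subgroup.mul_mem _ (Subgroup.inv_mem _ ht.1) hxT) h1
    have h3 := (TE B E₁).mul_mem ht h2
    rw [mul_inv_cancel_left] at h3
    exact h3
  have hVX : B.i.range ≤ X := by
    rintro _ ⟨v, rfl⟩
    exact hCAX (SD.H49.i_mem B W v)
  -- the isomorphism
  obtain ⟨φ, hφ⟩ : ∃ φ : H ≃* X, ∀ h, ((φ h : X) : G) = j h := by
    subst hXdef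
    exact ⟨MonoidHom.ofInjective hj, fun h => rfl⟩
  have hXN : X ≤ Subgroup.normalizer ((W.map B.i : Subgroup G) : Set G) := by
    rw [hr]
    exact sup_le (fun t ht => te_nor hinv ht) (fun c hc => c_nor hc)
  have hXst : X ≤ stabF (B.b W) := by
    rw [hr]
    exact sup_le hTb (fun c hc => (cj_eq_iff c _).1 (hlb.blk.ix.inv hc))
  have hUV : W.map B.i ≤ B.i.range := by
    rintro _ ⟨v, _, rfl⟩
    exact ⟨v, rfl⟩
  have hUp : IsPGroup ℓ (W.map B.i : Subgroup G) := hL.tp.pg.to_le hUV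
  have hCX : Subgroup.centralizer (B.i.range : Set G) ≤ X := by
    refine le_trans (Subgroup.centralizer_le ?_) hCAX
    rintro _ ⟨w, _, rfl⟩
    exact ⟨w, rfl⟩
  -- the block of `X`
  have hbX : Bx X (B.b W) := bx_up hF hUp (hUV.trans hVX) hCAX hXN hlb.blk hXst
  have hE' : Ix X (br (W.map B.i : Subgroup G) B.e) := by
    refine ⟨fun x hx => H66.br_of_not_mem (fun h => hx (hCAX h)), ?_⟩
    exact (H20.brm ℓ (FF M) hF G (W.map B.i : Subgroup G) X hUp hCAX hXN).2.2 B.e hL.blk.1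
  have hund : mulF (br (W.map B.i : Subgroup G) B.e) (B.b W) = B.b W := by
    have hs : ∀ x, x ∉ B.C W → br (W.map B.i : Subgroup G) B.e x = 0 := fun x hx =>
      H66.br_of_not_mem hx
    apply eq_of_res (mulF_supp (B.C W) hs hlb.blk.supp) hlb.blk.supp
    rw [mulF_res (B.C W) _ hs]
    have h1 : (fun t : B.C W => br (W.map B.i : Subgroup G) B.e t) = fun t : B.C W => B.e t := by
      funext t
      exact H66.br_of_mem t.2
    rw [h1]
    exact hlb.und
  have hVcard : Nat.card (B.i.range.subgroupOf X) = Nat.card B.i.range :=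
    Nat.card_congr (Subgroup.subgroupOfEquivOfLe hVX).toEquiv
  have hVp : IsPGroup ℓ (B.i.range.subgroupOf X) :=
    hL.tp.pg.of_equiv (Subgroup.subgroupOfEquivOfLe hVX).symm
  have hTf : Tp ℓ (fun t : X => B.b W t) (B.i.range.subgroupOf X) := by
    refine ⟨hVp, T3.H85.gd_of_gam hVX hCX hL.gam hlb.gam, ?_⟩
    intro Q hQ hQf
    have hmul : mulF (fun t : X => br (W.map B.i : Subgroup G) B.e t) (fun t : X => B.b W t) =
        fun t : X => B.b W t := by
      rw [← mulF_res X _ hE'.supp, hund]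
    have h1 := gd_map (gd_of_mul hF hE'.idem.1 hbX.blk.1.1 hmul hQ hQf)
    have h1' : Gd B.e (Q.map X.subtype) := by
      obtain ⟨g, hg1, hg2⟩ := h1
      refine ⟨g, hg1, ?_⟩
      intro h0
      apply hg2
      by_cases hg : g ∈ Subgroup.centralizer ((W.map B.i : Subgroup G) : Set G)
      · rw [H66.br_of_mem hg, h0]
      · rw [H66.br_of_not_mem hg]
    have hcard : Nat.card (Q.map X.subtype) = Nat.card Q :=
      (Nat.card_congr (Q.equivMapOfInjective X.subtype X.subtype_injective).toEquiv).symm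
    have h2 := hL.tp.mx _ (hQ.map X.subtype) h1'
    rw [hcard] at h2
    rw [hVcard]
    exact h2
  have hLX : Ld ℓ (fun t : X => B.b W t) (B.i.range.subgroupOf X) (fun t : X => B.g t) :=
    T3.H85.ld_of hVX hCX hL.ab hbX.blk hL.gam hlb.gam hTf
  -- the embedding of the defect group
  let i' : V₀ →* H := (φ.symm : X →* H).comp (B.i.codRestrict X (fun v => hVX ⟨v, rfl⟩))
  have hi' : ∀ v, j (i' v) = B.i v := by
    intro v
    rw [← hφ]
    change ((φ (φ.symm (B.i.codRestrict X (fun v => hVX ⟨v, rfl⟩) v)) : X) : G) = B.i v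
    rw [φ.apply_symm_apply]
    rfl
  have hi'inj : Function.Injective i' := by
    intro v w h
    apply hB.inj
    rw [← hi', ← hi', h]
  have hVi : ∀ a, a ∈ i'.range ↔ φ a ∈ B.i.range.subgroupOf X := by
    intro a
    rw [Subgroup.mem_subgroupOf, hφ]
    constructor
    · rintro ⟨v, rfl⟩
      exact ⟨v, (hi' v).symm⟩
    · rintro ⟨v, hv⟩
      refine ⟨v, hj ?_⟩
      rw [hi', hv]
  have hVi2 : ∀ a, a ∈ i'.range ↔ j a ∈ B.i.range := by
    intro a
    rw [hVi, Subgroup.mem_subgroupOf, hφ]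
  have hLH : Ld ℓ (fun h => B.b W (j h)) i'.range (fun h => B.g (j h)) := by
    have h1 := ld_iso φ hVi hLX
    have h2 : (fun a => B.b W ((φ a : X) : G)) = fun h => B.b W (j h) := by
      funext a
      rw [hφ]
    have h3 : (fun a => B.g ((φ a : X) : G)) = fun h => B.g (j h) := by
      funext a
      rw [hφ]
    rw [h2, h3] at h1
    exact h1
  have hXr : ∀ x ∈ X, ∃ h, j h = x := by
    intro x hx
    refine ⟨φ.symm ⟨x, hx⟩, ?_⟩
    rw [← hφ, φ.apply_symm_apply]
  have hjX : ∀ h, j h ∈ X := by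
    intro h
    rw [hXdef]
    exact ⟨h, rfl⟩
  -- the inertial group
  have hTg : ∀ h, j h ∈ Tg B.i.range B.g ↔ h ∈ Tg i'.range (fun h => B.g (j h)) := by
    intro h
    have h1 : h ∈ Subgroup.normalizer (i'.range : Set H) ↔
        j h ∈ Subgroup.normalizer (B.i.range : Set G) := by
      rw [Subgroup.mem_normalizer_iff, Subgroup.mem_normalizer_iff]
      constructor
      · intro hn x
        constructor
        · intro hx
          obtain ⟨a, rfl⟩ := hXr x (hVX hx)
          have h2 := (hn a).1 ((hVi2 a).2 hx)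
          rw [hVi2, map_mul, map_mul, map_inv] at h2
          exact h2
        · intro hx
          obtain ⟨a, ha⟩ := hXr _ (hVX hx)
          have h2 : x = j (h⁻¹ * a * h) := by
            rw [map_mul, map_mul, map_inv, ha]
            group
          rw [h2, ← hVi2]
          apply (hn _).2
          rw [hVi2, map_mul, map_mul, map_mul, map_mul, map_inv, ha]
          have h3 : j h * ((j h)⁻¹ * (j h * x * (j h)⁻¹) * j h) * (j h)⁻¹ =
              j h * x * (j h)⁻¹ := by group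
          rw [h3]
          exact hx
      · intro hn a
        rw [hVi2, hVi2, map_mul, map_mul, map_inv]
        exact hn (j a)
    have h2 : h ∈ stabF (fun h => B.g (j h)) ↔ j h ∈ stabF B.g := by
      constructor
      · intro hs x
        by_cases hx : x ∈ X
        · obtain ⟨a, rfl⟩ := hXr x hx
          have h3 := hs a
          change B.g (j (h * a * h⁻¹)) = B.g (j a) at h3
          rw [map_mul, map_mul, map_inv] at h3
          exact h3
        · have h4 : j h ∈ X := hjX h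
          rw [hL.gam.supp x (fun h' => hx (hCX h')), hL.gam.supp]
          intro h'
          apply hx
          have h3 := X.mul_mem (X.mul_mem (X.inv_mem h4) (hCX h')) h4
          have e : (j h)⁻¹ * (j h * x * (j h)⁻¹) * j h = x := by group
          rwa [e] at h3
      · intro hs a
        change B.g (j (h * a * h⁻¹)) = B.g (j a)
        rw [map_mul, map_mul, map_inv]
        exact hs (j a)
    constructor
    · rintro ⟨ha, hb⟩
      exact ⟨h1.2 ha, h2.2 hb⟩
    · rintro ⟨ha, hb⟩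
      exact ⟨h1.1 ha, h2.1 hb⟩
  have hact : ∀ t ∈ Tg i'.range (fun h => B.g (j h)), ∃ σ ∈ E₁, ∀ v, t * i' v * t⁻¹ = i' (σ v) := by
    intro t ht
    obtain ⟨-, σ, hσ, h1⟩ := hTint (j t) (hjX t) ((hTg t).2 ht)
    refine ⟨σ, hσ, fun v => hj ?_⟩
    rw [map_mul, map_mul, map_inv, hi', hi']
    exact h1 v
  have hsur : ∀ σ ∈ E₁, ∃ t ∈ Tg i'.range (fun h => B.g (j h)), ∀ v,
      t * i' v * t⁻¹ = i' (σ v) := by
    intro σ hσ
    obtain ⟨t, ht, h1⟩ := hB.sur σ (hE hσ)
    obtain ⟨h, rfl⟩ := hXr t (hTX' ⟨ht, σ, hσ, h1⟩)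
    refine ⟨h, (hTg h).1 ht, fun v => hj ?_⟩
    rw [map_mul, map_mul, map_inv, hi', hi']
    exact h1 v
  obtain ⟨B', he, hg, hi, hSd⟩ := syd ℓ M hM V₀ H E₁ hFq1 (fun h => B.b W (j h))
    (fun h => B.g (j h)) i' hi'inj hLH hact hsur
  have hi2 : ∀ v, j (B'.i v) = B.i v := by
    rw [hi]
    exact hi'
  have hTE : ∀ E₂ : Subgroup (MulAut V₀), ∀ h, j h ∈ TE B E₂ ↔ h ∈ TE B' E₂ := by
    intro E₂ h
    have h1 : h ∈ Tg B'.i.range B'.g ↔ j h ∈ Tg B.i.range B.g := by
      rw [hg, hi]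
      exact (hTg h).symm
    constructor
    · rintro ⟨ha, σ, hσ, hb⟩
      refine ⟨h1.2 ha, σ, hσ, fun v => hj ?_⟩
      rw [map_mul, map_mul, map_inv, hi2, hi2]
      exact hb v
    · rintro ⟨ha, σ, hσ, hb⟩
      refine ⟨h1.1 ha, σ, hσ, fun v => ?_⟩
      have h2 := congrArg j (hb v)
      rw [map_mul, map_mul, map_inv, hi2, hi2] at h2
      exact h2
  refine ⟨B', hSd, ⟨hj, hi2, fun x hx => hXr x (hCAX hx), fun h => by rw [hg], ?_⟩,
    fun h => by rw [he], ?_, hTE E₁, ?_⟩
  · -- the local blocks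
    intro W' hAW h
    have hb' := hSd.lb W'
    have hlbG := hB.lb W'
    have hCWA : B.C W' ≤ B.C W := by
      refine Subgroup.centralizer_le ?_
      rintro _ ⟨w, hw, rfl⟩
      exact ⟨w, hAW hw, rfl⟩
    have hCWX : B.C W' ≤ X := hCWA.trans hCAX
    have hmem : ∀ a, a ∈ Subgroup.centralizer ((W'.map B'.i : Subgroup H) : Set H) ↔
        j a ∈ B.C W' := by
      intro a
      rw [SD.H49.mem_C, Subgroup.mem_centralizer_iff]
      constructor
      · intro h1 w hw
        have h2 := congrArg j (h1 (B'.i w) ⟨w, hw, rfl⟩)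
        rw [map_mul, map_mul, hi2] at h2
        exact h2
      · rintro h1 _ ⟨w, hw, rfl⟩
        apply hj
        rw [map_mul, map_mul, hi2]
        exact h1 w hw
    obtain ⟨β, hβdef⟩ : ∃ β, β = H75.ext0 X (fun t : X => B'.b W' (φ.symm t)) := ⟨_, rfl⟩
    have hβX : ∀ x, x ∉ X → β x = 0 := by
      rw [hβdef]
      exact ext0_supp X _
    have hβt : ∀ t : X, β t = B'.b W' (φ.symm t) := by
      intro t
      rw [hβdef]
      exact ext0_apply X _ t
    have hβj : ∀ a, β (j a) = B'.b W' a := by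
      intro a
      have h1 := hβt (φ a)
      rw [φ.symm_apply_apply, hφ] at h1
      exact h1
    have hbx : Bx (B.C W') β := by
      constructor
      · intro x hx
        by_cases hxX : x ∈ X
        · obtain ⟨a, rfl⟩ := hXr x hxX
          rw [hβj]
          apply hb'.blk.supp
          intro h'
          exact hx ((hmem a).1 h')
        · exact hβX x hxX
      · -- the centraliser in `X`
        have h1 : ∀ t : X, φ.symm t ∈ Subgroup.centralizer ((W'.map B'.i : Subgroup H) : Set H) ↔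
            (t : G) ∈ B.C W' := by
          intro t
          rw [hmem, ← hφ, φ.apply_symm_apply]
        let ψ : B.C W' ≃* Subgroup.centralizer ((W'.map B'.i : Subgroup H) : Set H) :=
          { toFun := fun t => ⟨φ.symm ⟨t, hCWX t.2⟩, (h1 _).2 t.2⟩
            invFun := fun t => ⟨((φ (t : H) : X) : G), by rw [hφ]; exact (hmem t).1 t.2⟩
            left_inv := fun t => Subtype.ext (by
              change ((φ (φ.symm ⟨t, hCWX t.2⟩) : X) : G) = t
              rw [φ.apply_symm_apply])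
            right_inv := fun t => Subtype.ext (by
              change φ.symm ⟨((φ (t : H) : X) : G), _⟩ = (t : H)
              exact φ.symm_apply_apply (t : H))
            map_mul' := fun a b => Subtype.ext (by
              change φ.symm ⟨((a * b : B.C W') : G), _⟩ =
                φ.symm ⟨(a : G), _⟩ * φ.symm ⟨(b : G), _⟩
              rw [← map_mul]
              rfl) }
        have h2 : (fun t : B.C W' => β t) = fun t : B.C W' => B'.b W' (ψ t) := by
          funext t
          exact hβt ⟨t, hCWX t.2⟩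
        rw [h2]
        exact H20.IsBlk_equiv ψ hb'.blk.blk
    have hgam : mulF (br B.i.range β) B.g = B.g := by
      have hs : ∀ x, x ∉ X → br B.i.range β x = 0 := fun x hx =>
        H66.br_of_not_mem (fun h' => hx (hCX h'))
      have hgs : ∀ x, x ∉ X → B.g x = 0 := fun x hx => hL.gam.supp x (fun h' => hx (hCX h'))
      apply eq_of_res (mulF_supp X hs hgs) hgs
      rw [mulF_res X _ hs]
      have h0 := hb'.gam
      have hcen : ∀ a, a ∈ Subgroup.centralizer (B'.i.range : Set H) ↔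
          j a ∈ Subgroup.centralizer (B.i.range : Set G) := by
        intro a
        rw [Subgroup.mem_centralizer_iff, Subgroup.mem_centralizer_iff]
        constructor
        · rintro h1 _ ⟨v, rfl⟩
          have h2 := congrArg j (h1 (B'.i v) ⟨v, rfl⟩)
          rw [map_mul, map_mul, hi2] at h2
          exact h2
        · rintro h1 _ ⟨v, rfl⟩
          apply hj
          rw [map_mul, map_mul, hi2]
          exact h1 _ ⟨v, rfl⟩
      have h1 : (fun t : X => br B.i.range β t) =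
          fun t : X => br B'.i.range (B'.b W') (φ.symm t) := by
        funext t
        have ht : (t : G) = j (φ.symm t) := by rw [← hφ, φ.apply_symm_apply]
        by_cases htc : (t : G) ∈ Subgroup.centralizer (B.i.range : Set G)
        · have htc' : φ.symm t ∈ Subgroup.centralizer (B'.i.range : Set H) := by
            rw [hcen, ← ht]
            exact htc
          rw [H66.br_of_mem htc, H66.br_of_mem htc', hβt]
        · have htc' : φ.symm t ∉ Subgroup.centralizer (B'.i.range : Set H) := by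
            rw [hcen, ← ht]
            exact htc
          rw [H66.br_of_not_mem htc, H66.br_of_not_mem htc']
      have h2 : (fun t : X => B.g t) = fun t : X => B'.g (φ.symm t) := by
        funext t
        rw [hg]
        change B.g t = B.g (j (φ.symm t))
        rw [← hφ, φ.apply_symm_apply]
      rw [h1, h2, H20.mulF_equiv φ.symm, h0]
    have hVle : B.i.range ≤ B.C W' := by
      rintro _ ⟨v, rfl⟩
      exact SD.H49.i_mem B _ v
    have hfin : β = B.b W' :=
      SD.H49.uniq1 hF hL.tp.pg hVle hL.gam.ne hbx hlbG.blk hgam hlbG.gam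
    rw [← hfin, hβj]
  · -- `W` is normal
    refine ⟨?_⟩
    rintro _ ⟨v, hv, rfl⟩ h
    have h1 := (Subgroup.mem_normalizer_iff.1 (hXN (hjX h)) (B.i v)).1 ⟨v, hv, rfl⟩
    obtain ⟨w, hw, hw2⟩ := h1
    refine ⟨w, hw, hj ?_⟩
    rw [map_mul, map_mul, map_inv, hi2, hi2]
    exact hw2
  · -- the numbers of modular characters
    intro E₂ hE2
    have hsub : TE B E₂ ≤ X := by
      rintro t ⟨ha, σ, hσ, hb⟩
      exact hTX' ⟨ha, σ, hE2 hσ, hb⟩
    let e0 : TE B' E₂ →* TE B E₂ :=
      (j.comp (TE B' E₂).subtype).codRestrict (TE B E₂) (fun t => (hTE E₂ t).2 t.2)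
    have he0 : ∀ t : TE B' E₂, ((e0 t : TE B E₂) : G) = j t := fun t => rfl
    have hbij : Function.Bijective e0 := by
      constructor
      · intro a b hab
        apply Subtype.ext
        apply hj
        rw [← he0, ← he0, hab]
      · rintro ⟨x, hx⟩
        obtain ⟨h, rfl⟩ := hXr x (hsub hx)
        exact ⟨⟨h, (hTE E₂ h).1 hx⟩, Subtype.ext rfl⟩
    unfold Lam
    refine SD.H86.lnj_ln (MulEquiv.ofBijective e0 hbij) _ _ fun x => ?_
    rw [hg]
    rfl

end Pool.Agent.PP.SE.H30
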